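import Pool.Agent.Lib.MP_1bb0e8_anH56.Defs

/-! # leaf: the radial cluster set is the full cluster set for residually many points -/

set_option autoImplicit false

open Filter Topology

namespace SiegelPE

private def CollingW (ψ : ℂ → ℂ) (U : Set ℂ) (n : ℕ) : Set Circle :=
  {t | ∃ s : ℝ, 1 - 1 / ((n : ℝ) + 2) < s ∧ s < 1 ∧ ψ ((s : ℂ) * t) ∈ U}

private theorem Colling_half (n : ℕ) : (1 : ℝ) / ((n : ℝ) + 2) ≤ 1 / 2 := by
  apply one_div_le_one_div_of_le (by norm_num)
  have : (0 : ℝ) ≤ n := Nat.cast_nonneg n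
  linarith

private theorem Colling_norm (s : ℝ) (hs : 0 < s) (t : Circle) : ‖(s : ℂ) * t‖ = s := by
  rw [norm_mul, Circle.norm_coe, mul_one, Complex.norm_real, Real.norm_of_nonneg hs.le]

private theorem Colling_open (ψ : ℂ → ℂ) (hψ : ContinuousOn ψ {z : ℂ | 0 < ‖z‖ ∧ ‖z‖ < 1})
    (U : Set ℂ) (hU : IsOpen U) (n : ℕ) : IsOpen (CollingW ψ U n) := by
  have h1 : CollingW ψ U n = ⋃ s ∈ Set.Ioo (1 - 1 / ((n : ℝ) + 2)) 1,
      (fun t : Circle => ψ ((s : ℂ) * t)) ⁻¹' U := by
    ext t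
    simp only [CollingW, Set.mem_setOf_eq, Set.mem_iUnion, Set.mem_Ioo, Set.mem_preimage,
      exists_prop]
    constructor
    · rintro ⟨s, h1, h2, h3⟩
      exact ⟨s, ⟨h1, h2⟩, h3⟩
    · rintro ⟨s, ⟨h1, h2⟩, h3⟩
      exact ⟨s, h1, h2, h3⟩
  rw [h1]
  refine isOpen_biUnion fun s hs => ?_
  refine hU.preimage ?_
  have hs0 : 0 < s := by
    have := Colling_half n
    have := hs.1
    linarith
  refine hψ.comp_continuous (continuous_const.mul continuous_subtype_val) fun t => ?_
  have := Colling_norm s hs0 t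
  simp only [Set.mem_setOf_eq]
  constructor
  · rw [this]; exact hs0
  · rw [this]; exact hs.2

private theorem Colling_sub (ψ : ℂ → ℂ) (t : Circle) : PS ψ t ⊆ IS ψ t := by
  intro v hv
  simp only [PS, IS, Set.mem_iInter] at hv ⊢
  rintro ⟨d, hd⟩
  refine closure_mono ?_ (hv ⟨1 - d, by linarith⟩)
  rintro w ⟨s, h1, h2, h3, rfl⟩
  refine ⟨(s : ℂ) * t, ?_, ?_, rfl⟩
  · rw [Colling_norm s h2 t]; exact h3
  · have h4 : (s : ℂ) * t - t = ((s - 1 : ℝ) : ℂ) * t := by push_cast; ring
    rw [h4, norm_mul, Circle.norm_coe, mul_one, Complex.norm_real, Real.norm_eq_abs,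
      abs_of_neg (by linarith)]
    simp only at h1 ⊢
    linarith

theorem collingwood (ψ : ℂ → ℂ) (hψ : ContinuousOn ψ {z : ℂ | 0 < ‖z‖ ∧ ‖z‖ < 1}) :
    {t : Circle | PS ψ t = IS ψ t} ∈ residual Circle := by
  have hB := TopologicalSpace.isBasis_countableBasis ℂ
  have hres : (⋂ U ∈ TopologicalSpace.countableBasis ℂ, ⋂ n : ℕ,
      (CollingW ψ U n ∪ (closure (CollingW ψ U n))ᶜ)) ∈ residual Circle := by
    rw [countable_bInter_mem (TopologicalSpace.countable_countableBasis ℂ)]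
    intro U hU
    rw [countable_iInter_mem]
    intro n
    apply residual_of_dense_open
    · exact (Colling_open ψ hψ U (hB.isOpen hU) n).union isClosed_closure.isOpen_compl
    · intro x
      by_cases hx : x ∈ closure (CollingW ψ U n)
      · exact closure_mono Set.subset_union_left hx
      · exact subset_closure (Or.inr hx)
  refine mem_of_superset hres ?_
  intro t ht
  simp only [Set.mem_iInter] at ht
  refine Set.Subset.antisymm (Colling_sub ψ t) ?_
  intro v hv
  simp only [PS, IS, Set.mem_iInter] at hv ⊢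
  rintro ⟨r, hr⟩
  rw [hB.mem_closure_iff]
  intro U hU hvU
  obtain ⟨n, hn⟩ := exists_nat_one_div_lt (show (0 : ℝ) < 1 - r by linarith)
  have hn2 : (1 : ℝ) / ((n : ℝ) + 2) ≤ 1 / ((n : ℝ) + 1) := by
    apply one_div_le_one_div_of_le (by positivity)
    linarith
  rcases ht U hU n with h | h
  · obtain ⟨s, h1, h2, h3⟩ := h
    refine ⟨ψ ((s : ℂ) * t), h3, s, ?_, ?_, h2, rfl⟩
    · simp only
      linarith
    · have := Colling_half n
      linarith
  · exfalso
    have hop : IsOpen (closure (CollingW ψ U n))ᶜ := isClosed_closure.isOpen_compl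
    obtain ⟨ε, hε, hball⟩ := Metric.isOpen_iff.1 hop t h
    have hpos : (0 : ℝ) < 1 / ((n : ℝ) + 2) := by positivity
    set d : ℝ := min (ε / 2) (1 / ((n : ℝ) + 2)) with hd
    have hd0 : 0 < d := lt_min (by linarith) hpos
    have hv2 := hv ⟨d, hd0⟩
    rw [hB.mem_closure_iff] at hv2
    obtain ⟨w, hwU, z, hz1, hz2, rfl⟩ := hv2 U hU hvU
    simp only at hz2
    have hd1 : d ≤ ε / 2 := min_le_left _ _
    have hd2 : d ≤ 1 / ((n : ℝ) + 2) := min_le_right _ _
    have hz3 : 1 - d < ‖z‖ := by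
      have h4 : ‖(t : ℂ)‖ ≤ ‖z‖ + ‖z - t‖ := by
        have := norm_sub_norm_le (t : ℂ) z
        rw [norm_sub_rev] at this
        linarith
      rw [Circle.norm_coe] at h4
      linarith
    have hz4 : ((‖z‖ : ℝ) : ℂ) * (Circle.exp (Complex.arg z) : ℂ) = z := by
      rw [Circle.coe_exp]
      exact Complex.norm_mul_exp_arg_mul_I z
    have hmem : Circle.exp (Complex.arg z) ∈ CollingW ψ U n := by
      refine ⟨‖z‖, by linarith, hz1, ?_⟩
      rw [hz4]
      exact hwU
    refine hball ?_ (subset_closure hmem)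
    rw [Metric.mem_ball]
    have h5 : dist (Circle.exp (Complex.arg z)) t
        = ‖(Circle.exp (Complex.arg z) : ℂ) - t‖ := by
      rw [← dist_eq_norm]
      rfl
    rw [h5]
    have h6 : (Circle.exp (Complex.arg z) : ℂ) - t
        = ((1 - ‖z‖ : ℝ) : ℂ) * (Circle.exp (Complex.arg z) : ℂ) + (z - t) := by
      have : ((1 - ‖z‖ : ℝ) : ℂ) * (Circle.exp (Complex.arg z) : ℂ)
          = (Circle.exp (Complex.arg z) : ℂ)
            - ((‖z‖ : ℝ) : ℂ) * (Circle.exp (Complex.arg z) : ℂ) := by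
        push_cast
        ring
      rw [this, hz4]
      ring
    rw [h6]
    refine (norm_add_le _ _).trans_lt ?_
    rw [norm_mul, Circle.norm_coe, mul_one, Complex.norm_real, Real.norm_eq_abs,
      abs_of_nonneg (by linarith)]
    linarith

end SiegelPE
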