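import Mathlib
import Pool.Agent.Lib.MP_1bb0e8_an.Defs

/-!
# MP_1bb0e8_an: impressions (helper56)
-/

set_option autoImplicit false

open Filter Topology

namespace SiegelPE

/-- The impression at the point `t` of the unit circle, i.e. the full cluster set of `ψ` (defined on
the unit disk) at `t`. -/
def IS (ψ : ℂ → ℂ) (t : Circle) : Set ℂ :=
  ⋂ d : {d : ℝ // 0 < d}, closure {w | ∃ z : ℂ, ‖z‖ < 1 ∧ ‖z - t‖ < d.1 ∧ w = ψ z}

/-- The impression at the point `t` of the unit circle, i.e. the full cluster set of `φ` (defined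
outside the closed unit disk) at `t`. -/
def IE (φ : ℂ → ℂ) (t : Circle) : Set ℂ :=
  ⋂ d : {d : ℝ // 0 < d}, closure {w | ∃ z : ℂ, 1 < ‖z‖ ∧ ‖z - t‖ < d.1 ∧ w = φ z}

/-- The map `φ` of the exterior moved to the punctured disk. -/
noncomputable def inn (φ : ℂ → ℂ) (z : ℂ) : ℂ := φ ((starRingEnd ℂ z)⁻¹)

/-- `ψ` has a limit at the point `t` of the circle from inside the disk. -/
def HasLim (ψ : ℂ → ℂ) (t : Circle) : Prop :=
  ∃ w, Tendsto ψ (𝓝[Metric.ball 0 1] (t : ℂ)) (𝓝 w)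

end SiegelPE
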