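import Pool.Agent.Lib.MP_1bb0e8_anH56.Defs

/-! # leaf: dense G-delta sets -/

set_option autoImplicit false

open Filter Topology

namespace SiegelPE

theorem empty_or_residual (Γ : Set Circle) (hd : Dense Γ) (O : ℕ → Set Circle)
    (hO : ∀ n, IsOpen (O n)) (hinv : ∀ g ∈ Γ, ∀ t ∈ ⋂ n, O n, g * t ∈ ⋂ n, O n) :
    (⋂ n, O n) = ∅ ∨ (⋂ n, O n) ∈ residual Circle := by
  rcases Set.eq_empty_or_nonempty (⋂ n, O n) with h | ⟨t, ht⟩
  · exact Or.inl h
  · right
    have h1 : Dense ((fun g : Circle => g * t) '' Γ) :=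
      (Homeomorph.mulRight t).surjective.denseRange.dense_image
        (Homeomorph.mulRight t).continuous hd
    rw [countable_iInter_mem]
    intro n
    refine residual_of_dense_open (hO n) (h1.mono ?_)
    rintro _ ⟨g, hg, rfl⟩
    exact Set.mem_iInter.1 (hinv g hg t ht) n

end SiegelPE
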