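import Pool.Agent.Lib.MP_1bb0e8_anH56.Defs

/-! # leaf: from the exterior to the punctured disk -/

set_option autoImplicit false

open Filter Topology

namespace SiegelPE

private theorem in_ht (t : Circle) : (t : ℂ) * starRingEnd ℂ (t : ℂ) = 1 := by
  rw [Complex.mul_conj, Complex.normSq_eq_norm_sq, Circle.norm_coe]
  norm_num

private theorem in_dist {z : ℂ} (hz : z ≠ 0) (t : Circle) :
    ‖(starRingEnd ℂ z)⁻¹ - t‖ = ‖z - t‖ / ‖z‖ := by
  have hc : starRingEnd ℂ z ≠ 0 := (map_ne_zero _).mpr hz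
  rw [eq_div_iff (norm_ne_zero_iff.mpr hz)]
  have h1 : ((starRingEnd ℂ z)⁻¹ - t) * starRingEnd ℂ z = (t : ℂ) * starRingEnd ℂ ((t : ℂ) - z) := by
    rw [sub_mul, inv_mul_cancel₀ hc, map_sub, mul_sub, in_ht]
  have h2 := congrArg norm h1
  rw [norm_mul, norm_mul, RCLike.norm_conj, RCLike.norm_conj, Circle.norm_coe, one_mul,
    norm_sub_rev (t : ℂ) z] at h2
  exact h2

private theorem in_ray (t : Circle) (s : ℝ) :
    (starRingEnd ℂ ((s : ℂ) * t))⁻¹ = ((s⁻¹ : ℝ) : ℂ) * t := by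
  have h1 : (starRingEnd ℂ (t : ℂ))⁻¹ = t := by
    rw [eq_inv_of_mul_eq_one_right (in_ht t), inv_inv]
  rw [map_mul, Complex.conj_ofReal, mul_inv, h1, Complex.ofReal_inv]

theorem PE_inn (φ : ℂ → ℂ) (t : Circle) : PE φ t = PS (inn φ) t := by
  ext w
  simp only [PE, PS, Set.mem_iInter]
  constructor
  · intro h r
    have hρ0 : 0 < max r.1 (1 / 2) := lt_of_lt_of_le (by norm_num) (le_max_right _ _)
    have hρ1 : max r.1 (1 / 2) < 1 := max_lt r.2 (by norm_num)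
    refine closure_mono ?_ (h ⟨(max r.1 (1 / 2))⁻¹, (one_lt_inv₀ hρ0).2 hρ1⟩)
    rintro w' ⟨s, h1, h2, rfl⟩
    have hs : 0 < s := by linarith
    refine ⟨s⁻¹, ?_, inv_pos.2 hs, inv_lt_one_of_one_lt₀ h1, ?_⟩
    · refine lt_of_le_of_lt (le_max_left r.1 (1 / 2)) ?_
      exact (lt_inv_comm₀ hs hρ0).1 h2
    · rw [inn, in_ray, inv_inv]
  · intro h r
    have hr0 : 0 < r.1 := by linarith [r.2]
    refine closure_mono ?_ (h ⟨r.1⁻¹, inv_lt_one_of_one_lt₀ r.2⟩)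
    rintro w' ⟨s, h1, h2, h3, rfl⟩
    refine ⟨s⁻¹, (one_lt_inv₀ h2).2 h3, (inv_lt_comm₀ hr0 h2).1 h1, ?_⟩
    rw [inn, in_ray]

theorem IE_inn (φ : ℂ → ℂ) (t : Circle) : IE φ t = IS (inn φ) t := by
  ext w
  simp only [IE, IS, Set.mem_iInter]
  constructor
  · intro h d
    refine closure_mono ?_ (h d)
    rintro w' ⟨z, h1, h2, rfl⟩
    have hz : z ≠ 0 := norm_pos_iff.mp (by linarith)
    refine ⟨(starRingEnd ℂ z)⁻¹, ?_, ?_, ?_⟩
    · rw [norm_inv, RCLike.norm_conj]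
      exact inv_lt_one_of_one_lt₀ h1
    · rw [in_dist hz, div_lt_iff₀ (by linarith)]
      nlinarith [norm_nonneg (z - (t : ℂ)), d.2]
    · rw [inn, map_inv₀, inv_inv, Complex.conj_conj]
  · intro h d
    have hd := d.2
    refine closure_mono ?_ (h ⟨min (d.1 / 2) (1 / 2), lt_min (by linarith) (by norm_num)⟩)
    rintro w' ⟨z, h1, h2, rfl⟩
    have h3 : ‖z - (t : ℂ)‖ < d.1 / 2 := lt_of_lt_of_le h2 (min_le_left _ _)
    have h4 : ‖z - (t : ℂ)‖ < 1 / 2 := lt_of_lt_of_le h2 (min_le_right _ _)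
    have h5 : 1 / 2 < ‖z‖ := by
      have h6 := norm_sub_norm_le (t : ℂ) z
      rw [Circle.norm_coe, norm_sub_rev] at h6
      linarith
    have hz : z ≠ 0 := norm_pos_iff.mp (by linarith)
    refine ⟨(starRingEnd ℂ z)⁻¹, ?_, ?_, rfl⟩
    · rw [norm_inv, RCLike.norm_conj]
      exact (one_lt_inv₀ (by linarith)).2 h1
    · rw [in_dist hz, div_lt_iff₀ (by linarith)]
      nlinarith

end SiegelPE
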