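import Pool.Agent.Lib.MP_1bb0e8_anH56.Defs

/-! # leaf: the functional equation in the punctured disk -/

set_option autoImplicit false

open Filter Topology

namespace SiegelPE

private lemma norm_ci (z : ℂ) : ‖(starRingEnd ℂ z)⁻¹‖ = ‖z‖⁻¹ := by
  rw [norm_inv, RCLike.norm_conj]

private lemma one_lt_ci (z : ℂ) (h0 : 0 < ‖z‖) (h1 : ‖z‖ < 1) : 1 < ‖(starRingEnd ℂ z)⁻¹‖ := by
  rw [norm_ci]
  exact (one_lt_inv₀ h0).2 h1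

theorem cont_inn (φ : ℂ → ℂ) (hφ : ContinuousOn φ {z : ℂ | 1 < ‖z‖}) :
    ContinuousOn (inn φ) {z : ℂ | 0 < ‖z‖ ∧ ‖z‖ < 1} := by
  have hc : ContinuousOn (fun z : ℂ => (starRingEnd ℂ z)⁻¹) {z : ℂ | 0 < ‖z‖ ∧ ‖z‖ < 1} := by
    apply ContinuousOn.inv₀ Complex.continuous_conj.continuousOn
    intro z hz h
    have : ‖z‖ = 0 := by rw [← RCLike.norm_conj, h, norm_zero]
    exact absurd this (ne_of_gt hz.1)
  exact hφ.comp hc (fun z hz => one_lt_ci z hz.1 hz.2)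

theorem inn_eq (c : ℂ) (u : Circle) (φ : ℂ → ℂ)
    (he : ∀ z : ℂ, 1 < ‖z‖ → φ ((u : ℂ) * z ^ 2) = quad c (φ z)) (z : ℂ) (h0 : 0 < ‖z‖)
    (h1 : ‖z‖ < 1) : inn φ ((u : ℂ) * z ^ 2) = quad c (inn φ z) := by
  have h := he _ (one_lt_ci z h0 h1)
  have hu : (starRingEnd ℂ (u : ℂ))⁻¹ = (u : ℂ) := by
    rw [← Circle.coe_inv_eq_conj, Circle.coe_inv, inv_inv]
  unfold inn
  rw [← h, map_mul, map_pow, mul_inv, hu, inv_pow]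

theorem bound_inn (φ : ℂ → ℂ) {B : ℝ} (hB : ∀ z : ℂ, 1 < ‖z‖ → ‖z‖ ≤ 4 → ‖φ z‖ ≤ B) (z : ℂ)
    (h0 : 1 / 4 < ‖z‖) (h1 : ‖z‖ < 1) : ‖inn φ z‖ ≤ B := by
  have hz : 0 < ‖z‖ := by linarith
  refine hB _ (one_lt_ci z hz h1) ?_
  rw [norm_ci]
  rw [inv_le_comm₀ hz (by norm_num)]
  linarith

end SiegelPE
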