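
import Pool.Agent.Lib.MP_1bb0e8_anH56.Defs

/-! # leaf: the impression is a point iff the map has a limit -/

set_option autoImplicit false

open Filter Topology

namespace SiegelPE

private theorem near_mem (t : ℂ) {d : ℝ} (hd : 0 < d) :
    ∀ᶠ z in 𝓝[Metric.ball (0 : ℂ) 1] t, ‖z‖ < 1 ∧ ‖z - t‖ < d := by
  have h1 : ∀ᶠ z in 𝓝[Metric.ball (0 : ℂ) 1] t, z ∈ Metric.ball (0 : ℂ) 1 :=
    eventually_mem_nhdsWithin
  have h2 : ∀ᶠ z in 𝓝[Metric.ball (0 : ℂ) 1] t, z ∈ Metric.ball t d :=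
    mem_nhdsWithin_of_mem_nhds (Metric.ball_mem_nhds t hd)
  filter_upwards [h1, h2] with z hz1 hz2
  exact ⟨mem_ball_zero_iff.1 hz1, mem_ball_iff_norm.1 hz2⟩

private theorem cluster_mem {ψ : ℂ → ℂ} {t : Circle} {x : ℂ}
    (hx : MapClusterPt x (𝓝[Metric.ball (0 : ℂ) 1] (t : ℂ)) ψ) : x ∈ IS ψ t := by
  unfold IS
  rw [Set.mem_iInter]
  rintro ⟨d, hd⟩
  rw [mem_closure_iff_nhds]
  intro s hs
  have h1 := (mapClusterPt_iff_frequently.1 hx s hs).and_eventually (near_mem (t : ℂ) hd)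
  obtain ⟨z, hz1, hz2, hz3⟩ := h1.exists
  exact ⟨ψ z, hz1, z, hz2, hz3, rfl⟩

theorem sub_iff (ψ : ℂ → ℂ) (t : Circle) {r B : ℝ} (hr : r < 1)
    (hB : ∀ z : ℂ, r < ‖z‖ → ‖z‖ < 1 → ‖ψ z‖ ≤ B) :
    (IS ψ t).Subsingleton ↔ HasLim ψ t := by
  constructor
  · intro hsub
    have hne : (𝓝[Metric.ball (0 : ℂ) 1] (t : ℂ)).NeBot := by
      rw [← mem_closure_iff_nhdsWithin_neBot, closure_ball (0 : ℂ) one_ne_zero,
        mem_closedBall_zero_iff]
      exact (Circle.norm_coe t).le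
    have hev : ∀ᶠ z in 𝓝[Metric.ball (0 : ℂ) 1] (t : ℂ), ψ z ∈ Metric.closedBall (0 : ℂ) B := by
      filter_upwards [near_mem (t : ℂ) (sub_pos.2 hr)] with z hz
      rw [mem_closedBall_zero_iff]
      refine hB z ?_ hz.1
      have h1 : ‖(t : ℂ)‖ = 1 := Circle.norm_coe t
      have h2 : ‖(t : ℂ)‖ ≤ ‖z‖ + ‖z - t‖ := by
        have h3 : (t : ℂ) = z - (z - t) := by ring
        calc ‖(t : ℂ)‖ = ‖z - (z - t)‖ := by rw [← h3]
          _ ≤ _ := norm_sub_le _ _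
      have h4 := hz.2
      linarith
    have hK : IsCompact (Metric.closedBall (0 : ℂ) B) := isCompact_closedBall 0 B
    obtain ⟨w, -, hw⟩ := hK.exists_mapClusterPt (f := 𝓝[Metric.ball (0 : ℂ) 1] (t : ℂ))
      (u := ψ) (Filter.le_principal_iff.2 hev)
    refine ⟨w, hK.tendsto_nhds_of_unique_mapClusterPt hev fun y _ hy => ?_⟩
    exact hsub (cluster_mem hy) (cluster_mem hw)
  · rintro ⟨w, hw⟩
    have key : ∀ x ∈ IS ψ t, x = w := by
      intro x hx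
      refine eq_of_forall_dist_le fun ε hε => ?_
      have h1 := hw (Metric.closedBall_mem_nhds w hε)
      rw [mem_map, Metric.mem_nhdsWithin_iff] at h1
      obtain ⟨d, hd, h2⟩ := h1
      unfold IS at hx
      rw [Set.mem_iInter] at hx
      have h3 := hx ⟨d, hd⟩
      have h4 : {w' | ∃ z : ℂ, ‖z‖ < 1 ∧ ‖z - t‖ < d ∧ w' = ψ z} ⊆ Metric.closedBall w ε := by
        rintro w' ⟨z, hz1, hz2, rfl⟩
        exact h2 ⟨mem_ball_iff_norm.2 hz2, mem_ball_zero_iff.2 hz1⟩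
      exact Metric.mem_closedBall.1 (closure_minimal h4 Metric.isClosed_closedBall h3)
    intro x hx y hy
    rw [key x hx, key y hy]

end SiegelPE
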