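import Pool.Agent.Lib.MP_1bb0e8_anH56.Defs

/-! # leaf: the points with a limit form a countable intersection of open sets -/

set_option autoImplicit false

open Filter Topology

namespace SiegelPE

theorem lim_open (ψ : ℂ → ℂ) : ∃ O : ℕ → Set Circle, (∀ n, IsOpen (O n)) ∧
    {t : Circle | HasLim ψ t} = ⋂ n, O n := by
  refine ⟨fun n => {t : Circle | ∃ d : ℝ, 0 < d ∧ ∀ z ∈ Metric.ball (0 : ℂ) 1,
    ∀ z' ∈ Metric.ball (0 : ℂ) 1, ‖z - t‖ < d → ‖z' - t‖ < d →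
      dist (ψ z) (ψ z') < 1 / ((n : ℝ) + 1)}, fun n => ?_, ?_⟩
  · rw [Metric.isOpen_iff]
    rintro t ⟨d, hd, h⟩
    refine ⟨d / 2, by positivity, fun t' ht' => ?_⟩
    have h1 : ‖(t' : ℂ) - t‖ < d / 2 := by
      rw [← dist_eq_norm]
      exact ht'
    refine ⟨d / 2, by positivity, fun z hz z' hz' h2 h3 => h z hz z' hz' ?_ ?_⟩
    · have := norm_sub_le_norm_sub_add_norm_sub z (t' : ℂ) (t : ℂ)
      linarith
    · have := norm_sub_le_norm_sub_add_norm_sub z' (t' : ℂ) (t : ℂ)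
      linarith
  · ext t
    have hne : (𝓝[Metric.ball (0 : ℂ) 1] (t : ℂ)).NeBot := by
      rw [← mem_closure_iff_nhdsWithin_neBot, closure_ball (0 : ℂ) one_ne_zero,
        mem_closedBall_zero_iff, Circle.norm_coe]
    rw [Set.mem_iInter]
    change HasLim ψ t ↔ _
    unfold HasLim
    rw [← cauchy_map_iff_exists_tendsto, Metric.cauchy_iff]
    constructor
    · rintro ⟨-, h⟩ n
      obtain ⟨s, hs, hd⟩ := h (1 / ((n : ℝ) + 1)) (by positivity)
      rw [Filter.mem_map, Metric.mem_nhdsWithin_iff] at hs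
      obtain ⟨d, hd0, hsub⟩ := hs
      refine ⟨d, hd0, fun z hz z' hz' h1 h2 => hd _ (hsub ⟨?_, hz⟩) _ (hsub ⟨?_, hz'⟩)⟩
      · rw [Metric.mem_ball, dist_eq_norm]
        exact h1
      · rw [Metric.mem_ball, dist_eq_norm]
        exact h2
    · intro h
      refine ⟨hne.map ψ, fun e he => ?_⟩
      obtain ⟨n, hn⟩ := exists_nat_one_div_lt he
      obtain ⟨d, hd0, hd⟩ := h n
      refine ⟨ψ '' (Metric.ball (t : ℂ) d ∩ Metric.ball 0 1),
        Filter.image_mem_map (Metric.mem_nhdsWithin_iff.mpr ⟨d, hd0, subset_rfl⟩), ?_⟩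
      rintro _ ⟨z, ⟨h1, h2⟩, rfl⟩ _ ⟨z', ⟨h3, h4⟩, rfl⟩
      rw [Metric.mem_ball, dist_eq_norm] at h1 h3
      exact (hd z h2 z' h4 h1 h3).trans hn

end SiegelPE
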