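import Pool.Agent.Lib.MP_1bb0e8_anH56.Defs

/-! # leaf: radial cluster sets are in the impressions -/

set_option autoImplicit false

open Filter Topology

namespace SiegelPE

private theorem pssub_norm (s : ℝ) (t : Circle) (h0 : 0 < s) : ‖(s : ℂ) * t‖ = s := by
  rw [norm_mul, Circle.norm_coe, mul_one, Complex.norm_real, Real.norm_eq_abs, abs_of_pos h0]

private theorem pssub_dist (s : ℝ) (t : Circle) (h1 : s < 1) : ‖(s : ℂ) * t - t‖ = 1 - s := by
  have e : (s : ℂ) * t - t = ((s - 1 : ℝ) : ℂ) * t := by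
    push_cast
    ring
  rw [e, norm_mul, Circle.norm_coe, mul_one, Complex.norm_real, Real.norm_eq_abs, abs_sub_comm,
    abs_of_pos (by linarith)]

theorem PS_subset_IS (ψ : ℂ → ℂ) (t : Circle) : PS ψ t ⊆ IS ψ t := by
  intro p hp
  unfold IS
  rw [Set.mem_iInter]
  rintro ⟨d, hd⟩
  have h1 := Set.mem_iInter.1 hp ⟨1 - d, by linarith⟩
  refine closure_mono ?_ h1
  rintro w ⟨s, hs, h0, h1, rfl⟩
  change 1 - d < s at hs
  refine ⟨(s : ℂ) * t, ?_, ?_, rfl⟩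
  · rw [pssub_norm s t h0]
    exact h1
  · rw [pssub_dist s t h1]
    change 1 - s < d
    linarith

theorem mem_IS_of_dense (ψ : ℂ → ℂ) (p : ℂ) (h : Dense {t : Circle | p ∈ PS ψ t}) (t : Circle) :
    p ∈ IS ψ t := by
  unfold IS
  rw [Set.mem_iInter]
  rintro ⟨d, hd⟩
  rw [Metric.mem_closure_iff]
  intro ε hε
  obtain ⟨t', ht', hdist⟩ := h.exists_dist_lt t (half_pos hd)
  have h1 := Set.mem_iInter.1 ht' ⟨1 - d / 2, by linarith⟩
  rw [Metric.mem_closure_iff] at h1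
  obtain ⟨w, ⟨s, hs, h0, h1', rfl⟩, hw⟩ := h1 ε hε
  change 1 - d / 2 < s at hs
  refine ⟨ψ ((s : ℂ) * t'), ⟨(s : ℂ) * t', ?_, ?_, rfl⟩, hw⟩
  · rw [pssub_norm s t' h0]
    exact h1'
  · have e1 : ‖(s : ℂ) * t' - t'‖ < d / 2 := by
      rw [pssub_dist s t' h1']
      linarith
    have e2 : ‖(t' : ℂ) - t‖ < d / 2 := by
      rw [← dist_eq_norm, dist_comm]
      exact hdist
    change ‖(s : ℂ) * t' - t‖ < d
    calc ‖(s : ℂ) * t' - t‖ = ‖((s : ℂ) * t' - t') + ((t' : ℂ) - t)‖ := by ring_nf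
      _ ≤ ‖(s : ℂ) * t' - t'‖ + ‖(t' : ℂ) - t‖ := norm_add_le _ _
      _ < d := by linarith

end SiegelPE
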