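import Pool.Agent.Lib.MP_1bb0e8_anH56.Defs

/-! # leaf: limits and squares -/

set_option autoImplicit false

open Filter Topology

namespace SiegelPE

private theorem root_tri (z a : ℂ) : 2 * ‖a‖ ≤ ‖z - a‖ + ‖z + a‖ := by
  have h1 : ‖(z + a) - (z - a)‖ ≤ ‖z + a‖ + ‖z - a‖ := norm_sub_le _ _
  have e : (z + a) - (z - a) = (2 : ℂ) * a := by ring
  have e2 : ‖(2 : ℂ)‖ = 2 := by simp
  rw [e, norm_mul, e2] at h1
  linarith

private theorem root_side (l : Filter ℂ) (ψ : ℂ → ℂ) {a : ℂ} (ha : a ≠ 0)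
    (h : Tendsto (fun s => ψ s ^ 2) l (𝓝 (a ^ 2)))
    (he : ∀ᶠ s in l, ‖ψ s - a‖ < ‖ψ s + a‖) : Tendsto ψ l (𝓝 a) := by
  rw [tendsto_iff_norm_sub_tendsto_zero]
  have h1 : Tendsto (fun s => ‖ψ s ^ 2 - a ^ 2‖ / ‖a‖) l (𝓝 0) := by
    have h2 := (tendsto_iff_norm_sub_tendsto_zero.1 h).div_const ‖a‖
    rw [zero_div] at h2
    exact h2
  refine squeeze_zero' (Eventually.of_forall fun s => norm_nonneg _) ?_ h1
  filter_upwards [he] with s hs
  have ha' : 0 < ‖a‖ := norm_pos_iff.2 ha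
  have h2 := root_tri (ψ s) a
  rw [le_div_iff₀ ha']
  have h3 : ψ s ^ 2 - a ^ 2 = (ψ s - a) * (ψ s + a) := by ring
  rw [h3, norm_mul]
  exact mul_le_mul_of_nonneg_left (by linarith) (norm_nonneg _)

theorem hasLim_of_quad (c : ℂ) (ψ : ℂ → ℂ) (hψ : ContinuousOn ψ {z : ℂ | 0 < ‖z‖ ∧ ‖z‖ < 1})
    (t : Circle) (h : HasLim (fun z => quad c (ψ z)) t) : HasLim ψ t := by
  obtain ⟨w, h⟩ := h
  have h' : Tendsto (fun s => ψ s ^ 2) (𝓝[Metric.ball 0 1] (t : ℂ)) (𝓝 (w - c)) := by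
    have h1 := h.sub_const c
    simpa [quad] using h1
  obtain ⟨a, ha⟩ := IsAlgClosed.exists_pow_nat_eq (w - c) (show 0 < 2 by norm_num)
  rw [← ha] at h'
  by_cases ha0 : a = 0
  · refine ⟨0, ?_⟩
    rw [tendsto_zero_iff_norm_tendsto_zero]
    have h1 : Tendsto (fun s => Real.sqrt ‖ψ s ^ 2‖) (𝓝[Metric.ball 0 1] (t : ℂ))
        (𝓝 (Real.sqrt ‖a ^ 2‖)) :=
      (Real.continuous_sqrt.tendsto _).comp h'.norm
    have h2 : Real.sqrt ‖a ^ 2‖ = 0 := by rw [ha0]; simp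
    have h3 : (fun s => Real.sqrt ‖ψ s ^ 2‖) = fun s => ‖ψ s‖ := by
      funext s
      rw [norm_pow, Real.sqrt_sq (norm_nonneg _)]
    rw [h2, h3] at h1
    exact h1
  · have hapos : 0 < ‖a‖ := norm_pos_iff.2 ha0
    have h2 : ∀ᶠ s in 𝓝[Metric.ball 0 1] (t : ℂ), ‖ψ s ^ 2 - a ^ 2‖ < ‖a‖ ^ 2 :=
      (tendsto_iff_norm_sub_tendsto_zero.1 h').eventually_lt_const (by positivity)
    obtain ⟨ε, hε, hsub⟩ := Metric.mem_nhdsWithin_iff.1 h2
    set d := min ε (1 / 2) with hd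
    have hd0 : 0 < d := lt_min hε (by norm_num)
    set A : Set ℂ := Metric.ball (t : ℂ) d ∩ Metric.ball 0 1 with hA
    have hI : ∀ s ∈ A, (0 < ‖s‖ ∧ ‖s‖ < 1) ∧ ‖ψ s ^ 2 - a ^ 2‖ < ‖a‖ ^ 2 := by
      intro s hs
      have h3 : ‖s‖ < 1 := by
        have := hs.2
        rwa [mem_ball_zero_iff] at this
      have h4 : ‖s - t‖ < d := by
        have := hs.1
        rwa [mem_ball_iff_norm] at this
      refine ⟨⟨?_, h3⟩, ?_⟩
      · rw [norm_pos_iff]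
        intro h0
        rw [h0, zero_sub, norm_neg, Circle.norm_coe] at h4
        have : d ≤ 1 / 2 := min_le_right _ _
        linarith
      · exact hsub ⟨Metric.ball_subset_ball (min_le_left _ _) hs.1, hs.2⟩
    have hmem : A ∈ 𝓝[Metric.ball 0 1] (t : ℂ) :=
      Metric.mem_nhdsWithin_iff.2 ⟨d, hd0, fun x hx => hx⟩
    have hpre : IsPreconnected A :=
      ((convex_ball (t : ℂ) d).inter (convex_ball 0 1)).isPreconnected
    have hc1 : ContinuousOn (fun s => ‖ψ s - a‖ - ‖ψ s + a‖) A := by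
      have hc2 : ContinuousOn ψ A := hψ.mono fun s hs => (hI s hs).1
      exact ((hc2.sub continuousOn_const).norm).sub ((hc2.add continuousOn_const).norm)
    have hnz : ∀ s ∈ A, ‖ψ s - a‖ - ‖ψ s + a‖ ≠ 0 := by
      intro s hs h0
      have h3 := (hI s hs).2
      have h4 := root_tri (ψ s) a
      have h5 : ψ s ^ 2 - a ^ 2 = (ψ s - a) * (ψ s + a) := by ring
      rw [h5, norm_mul] at h3
      have h6 : ‖ψ s - a‖ = ‖ψ s + a‖ := by linarith
      rw [h6] at h3 h4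
      nlinarith [norm_nonneg (ψ s + a)]
    rcases A.eq_empty_or_nonempty with hAe | ⟨s0, hs0⟩
    · rw [hAe] at hmem
      refine ⟨0, ?_⟩
      rw [Filter.empty_mem_iff_bot.1 hmem]
      exact tendsto_bot
    rcases lt_or_gt_of_ne (hnz s0 hs0) with hneg | hpos
    · refine ⟨a, root_side _ ψ ha0 h' ?_⟩
      filter_upwards [hmem] with s hs
      by_contra hcon
      have h3 : 0 ≤ ‖ψ s - a‖ - ‖ψ s + a‖ := by linarith
      obtain ⟨x, hx, hx0⟩ := hpre.intermediate_value hs0 hs hc1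
        (show (0 : ℝ) ∈ Set.Icc _ _ from ⟨hneg.le, h3⟩)
      exact hnz x hx hx0
    · refine ⟨-a, root_side _ ψ (neg_ne_zero.2 ha0) (by rw [neg_sq]; exact h') ?_⟩
      filter_upwards [hmem] with s hs
      rw [sub_neg_eq_add, ← sub_eq_add_neg]
      by_contra hcon
      have h3 : ‖ψ s - a‖ - ‖ψ s + a‖ ≤ 0 := by linarith
      obtain ⟨x, hx, hx0⟩ := hpre.intermediate_value hs hs0 hc1
        (show (0 : ℝ) ∈ Set.Icc _ _ from ⟨h3, hpos.le⟩)
      exact hnz x hx hx0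

end SiegelPE
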