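import Pool.Agent.Lib.MP_1bb0e8_anH56.Defs

/-! # leaf: limits and the rotation -/

set_option autoImplicit false

open Filter Topology

namespace SiegelPE

theorem hasLim_rot (c : ℂ) (l : Circle) (ψ : ℂ → ℂ)
    (he : ∀ z ∈ Metric.ball (0 : ℂ) 1, ψ ((l : ℂ) * z) = quad c (ψ z)) (t : Circle)
    (h : HasLim ψ t) : HasLim ψ (l * t) := by
  obtain ⟨w, hw⟩ := h
  have hc : Continuous (quad c) := by
    unfold quad
    fun_prop
  have hl : ((l⁻¹ : Circle) : ℂ) * (l : ℂ) = 1 := by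
    rw [← Circle.coe_mul, inv_mul_cancel, Circle.coe_one]
  have hb : ∀ z ∈ Metric.ball (0 : ℂ) 1, ((l⁻¹ : Circle) : ℂ) * z ∈ Metric.ball (0 : ℂ) 1 := by
    intro z hz
    rw [mem_ball_zero_iff] at hz ⊢
    rwa [norm_mul, Circle.norm_coe, one_mul]
  have h1 : Tendsto (fun z : ℂ => ((l⁻¹ : Circle) : ℂ) * z)
      (𝓝[Metric.ball (0 : ℂ) 1] ((l * t : Circle) : ℂ)) (𝓝[Metric.ball (0 : ℂ) 1] (t : ℂ)) := by
    refine tendsto_nhdsWithin_iff.mpr ⟨?_, ?_⟩
    · have h2 : Continuous (fun z : ℂ => ((l⁻¹ : Circle) : ℂ) * z) := by fun_prop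
      have h3 := h2.tendsto ((l * t : Circle) : ℂ)
      have h4 : ((l⁻¹ : Circle) : ℂ) * ((l * t : Circle) : ℂ) = t := by
        rw [Circle.coe_mul, ← mul_assoc, hl, one_mul]
      simp only [h4] at h3
      exact h3.mono_left nhdsWithin_le_nhds
    · filter_upwards [self_mem_nhdsWithin] with z hz
      exact hb z hz
  refine ⟨quad c w, ?_⟩
  refine ((hc.tendsto w).comp (hw.comp h1)).congr' ?_
  filter_upwards [self_mem_nhdsWithin] with z hz
  have h5 := he _ (hb z hz)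
  rw [← mul_assoc, mul_comm (l : ℂ), hl, one_mul] at h5
  exact h5.symm

end SiegelPE
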