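import Pool.Agent.Lib.MP_1bb0e8_anH56.Defs

/-! # leaf: limits and the squaring map, backward -/

set_option autoImplicit false

open Filter Topology

namespace SiegelPE

theorem hasLim_quad_of_sq (c : ℂ) (u : Circle) (ψ : ℂ → ℂ)
    (he : ∀ z : ℂ, 0 < ‖z‖ → ‖z‖ < 1 → ψ ((u : ℂ) * z ^ 2) = quad c (ψ z)) (t : Circle)
    (h : HasLim ψ (u * t ^ 2)) : HasLim (fun z => quad c (ψ z)) t := by
  obtain ⟨w, hw⟩ := h
  refine ⟨w, ?_⟩
  have h1 : Tendsto (fun z : ℂ => (u : ℂ) * z ^ 2) (𝓝[Metric.ball (0 : ℂ) 1] (t : ℂ))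
      (𝓝[Metric.ball (0 : ℂ) 1] ((u * t ^ 2 : Circle) : ℂ)) := by
    rw [tendsto_nhdsWithin_iff]
    refine ⟨?_, ?_⟩
    · have h2 : Continuous fun z : ℂ => (u : ℂ) * z ^ 2 := by fun_prop
      have h3 := h2.tendsto (t : ℂ)
      have h4 : ((u * t ^ 2 : Circle) : ℂ) = (u : ℂ) * (t : ℂ) ^ 2 := by
        rw [Circle.coe_mul, Circle.coe_pow]
      rw [h4]
      exact h3.mono_left nhdsWithin_le_nhds
    · filter_upwards [self_mem_nhdsWithin] with z hz
      rw [mem_ball_zero_iff] at hz ⊢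
      rw [norm_mul, norm_pow, Circle.norm_coe, one_mul]
      exact pow_lt_one₀ (norm_nonneg z) hz two_ne_zero
  refine (hw.comp h1).congr' ?_
  have h5 : ∀ᶠ z : ℂ in 𝓝[Metric.ball (0 : ℂ) 1] (t : ℂ), z ≠ 0 := by
    refine eventually_nhdsWithin_of_eventually_nhds ?_
    exact isOpen_ne.mem_nhds (Circle.coe_ne_zero t)
  filter_upwards [self_mem_nhdsWithin, h5] with z hz hz0
  rw [mem_ball_zero_iff] at hz
  exact he z (norm_pos_iff.2 hz0) hz

end SiegelPE
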