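import Pool.Agent.Lib.MP_1bb0e8_anH56.Defs

/-! # leaf: limits and the squaring map, forward -/

set_option autoImplicit false

open Filter Topology

namespace SiegelPE

theorem hasLim_sq (c : ℂ) (u : Circle) (ψ : ℂ → ℂ)
    (he : ∀ z : ℂ, 0 < ‖z‖ → ‖z‖ < 1 → ψ ((u : ℂ) * z ^ 2) = quad c (ψ z)) (t : Circle)
    (h : HasLim ψ t) : HasLim ψ (u * t ^ 2) := by
  obtain ⟨w, hw⟩ := h
  set T : ℂ := ((u * t ^ 2 : Circle) : ℂ) with hT
  have hTval : T = (u : ℂ) * (t : ℂ) ^ 2 := by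
    rw [hT, Circle.coe_mul, Circle.coe_pow]
  have hTn : ‖T‖ = 1 := Circle.norm_coe _
  have hT0 : T ≠ 0 := by
    rw [← norm_ne_zero_iff, hTn]
    exact one_ne_zero
  set g : ℂ → ℂ := fun y => (t : ℂ) * (y / T) ^ (((2 : ℕ) : ℂ)⁻¹) with hg
  have hg2 : ∀ y, (u : ℂ) * g y ^ 2 = y := by
    intro y
    have h1 : ((y / T) ^ (((2 : ℕ) : ℂ)⁻¹)) ^ 2 = y / T := Complex.cpow_nat_inv_pow _ (by norm_num)
    rw [hg]
    show (u : ℂ) * ((t : ℂ) * (y / T) ^ (((2 : ℕ) : ℂ)⁻¹)) ^ 2 = y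
    rw [mul_pow, h1, ← mul_assoc, ← hTval, mul_div_cancel₀ _ hT0]
  have hgn : ∀ y, ‖g y‖ ^ 2 = ‖y‖ := by
    intro y
    have h1 := congrArg norm (hg2 y)
    rw [norm_mul, norm_pow, Circle.norm_coe, one_mul] at h1
    exact h1
  have hgT : g T = (t : ℂ) := by
    show (t : ℂ) * (T / T) ^ (((2 : ℕ) : ℂ)⁻¹) = t
    rw [div_self hT0, Complex.one_cpow, mul_one]
  have hgc : ContinuousAt g T := by
    have h1 : ContinuousAt (fun y : ℂ => y / T) T := continuousAt_id.div_const T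
    have h2 : ContinuousAt (fun y : ℂ => (y / T) ^ (((2 : ℕ) : ℂ)⁻¹)) T := by
      refine h1.cpow continuousAt_const ?_
      show T / T ∈ Complex.slitPlane
      rw [div_self hT0]
      exact Complex.one_mem_slitPlane
    exact continuousAt_const.mul h2
  have hgt : Tendsto g (𝓝[Metric.ball 0 1] T) (𝓝[Metric.ball 0 1] (t : ℂ)) := by
    rw [tendsto_nhdsWithin_iff]
    constructor
    · have h1 : Tendsto g (𝓝 T) (𝓝 (g T)) := hgc
      rw [hgT] at h1
      exact h1.mono_left nhdsWithin_le_nhds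
    · filter_upwards [self_mem_nhdsWithin] with y hy
      rw [mem_ball_zero_iff] at hy ⊢
      have h2 := hgn y
      nlinarith [norm_nonneg (g y)]
  have hne : ∀ᶠ y in 𝓝[Metric.ball 0 1] T, y ≠ 0 :=
    nhdsWithin_le_nhds (isOpen_ne.mem_nhds hT0)
  refine ⟨quad c w, ?_⟩
  have hq : Continuous (quad c) := by
    unfold quad
    fun_prop
  have h3 : Tendsto (fun y => quad c (ψ (g y))) (𝓝[Metric.ball 0 1] T) (𝓝 (quad c w)) :=
    (hq.tendsto w).comp (hw.comp hgt)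
  refine h3.congr' ?_
  filter_upwards [self_mem_nhdsWithin, hne] with y hy hy0
  rw [mem_ball_zero_iff] at hy
  have h4 := hgn y
  have h5 : 0 < ‖y‖ := norm_pos_iff.2 hy0
  have h6 : 0 < ‖g y‖ := by
    rcases (norm_nonneg (g y)).lt_or_eq with h7 | h7
    · exact h7
    · rw [← h7] at h4
      norm_num at h4
      exact absurd h4.symm h5.ne'
  have h8 : ‖g y‖ < 1 := by nlinarith
  rw [← he (g y) h6 h8, hg2]

end SiegelPE
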