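import Pool.Agent.Lib.MP_1bb0e8_an.Main
import Pool.Agent.Lib.MP_1bb0e8_anH56.Colling
import Pool.Agent.Lib.MP_1bb0e8_anH56.PSsub
import Pool.Agent.Lib.MP_1bb0e8_anH56.OscA
import Pool.Agent.Lib.MP_1bb0e8_anH56.OscB
import Pool.Agent.Lib.MP_1bb0e8_anH56.Root
import Pool.Agent.Lib.MP_1bb0e8_anH56.Rot
import Pool.Agent.Lib.MP_1bb0e8_anH56.SqFwd
import Pool.Agent.Lib.MP_1bb0e8_anH56.SqBwd
import Pool.Agent.Lib.MP_1bb0e8_anH56.Inn
import Pool.Agent.Lib.MP_1bb0e8_anH56.InnB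
import Pool.Agent.Lib.MP_1bb0e8_anH56.Gd

/-! # assembly (helper56) -/

set_option autoImplicit false

open Filter Topology

namespace SiegelPE

private theorem alt (P I : Circle → Set ℂ) (hPI : ∀ t, P t ⊆ I t)
    (hC : {t : Circle | P t = I t} ∈ residual Circle)
    (h : {t : Circle | (I t).Subsingleton} = ∅ ∨
      {t : Circle | (I t).Subsingleton} ∈ residual Circle) :
    ({t : Circle | (I t).Subsingleton} ∈ residual Circle ∧
        IsMeagre {t : Circle | (P t).Nontrivial}) ∨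
      ((∀ t : Circle, (I t).Nontrivial) ∧
        {t : Circle | (P t).Nontrivial} ∈ residual Circle) := by
  rcases h with h | h
  · right
    have h1 : ∀ t, (I t).Nontrivial := by
      intro t
      rw [← Set.not_subsingleton_iff]
      intro ht
      have h2 : t ∈ {t : Circle | (I t).Subsingleton} := ht
      rw [h] at h2
      exact h2
    refine ⟨h1, ?_⟩
    filter_upwards [hC] with t ht
    have h3 : P t = I t := ht
    rw [h3]
    exact h1 t
  · left
    refine ⟨h, ?_⟩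
    show {t : Circle | (P t).Nontrivial}ᶜ ∈ residual Circle
    filter_upwards [h] with t ht
    have ht' : (I t).Subsingleton := ht
    intro hn
    exact Set.not_nontrivial_iff.mpr (ht'.anti (hPI t)) hn

theorem dich_S (c : ℂ) (l : Circle) (hl : ∀ n : ℕ, 0 < n → l ^ n ≠ 1) (ψ : ℂ → ℂ)
    (hψ : ContinuousOn ψ (Metric.ball 0 1))
    (he : ∀ z ∈ Metric.ball (0 : ℂ) 1, ψ ((l : ℂ) * z) = quad c (ψ z)) :
    ({t : Circle | (IS ψ t).Subsingleton} ∈ residual Circle ∧
        IsMeagre {t : Circle | (PS ψ t).Nontrivial}) ∨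
      ((∀ t : Circle, (IS ψ t).Nontrivial) ∧
        {t : Circle | (PS ψ t).Nontrivial} ∈ residual Circle) := by
  have hbd : ∀ z ∈ Metric.ball (0 : ℂ) 1, ‖ψ z‖ ≤ 1 + ‖c‖ := bound_S c l ψ hψ he
  have hψ' : ContinuousOn ψ {z : ℂ | 0 < ‖z‖ ∧ ‖z‖ < 1} :=
    hψ.mono (fun z hz => by rw [mem_ball_zero_iff]; exact hz.2)
  have hsub : ∀ t : Circle, (IS ψ t).Subsingleton ↔ HasLim ψ t := fun t =>
    sub_iff ψ t (r := 0) (B := 1 + ‖c‖) one_pos
      (fun z _ h1 => hbd z (by rw [mem_ball_zero_iff]; exact h1))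
  obtain ⟨O, hO, hOe⟩ := lim_open ψ
  have hset : {t : Circle | (IS ψ t).Subsingleton} = ⋂ n, O n := by
    rw [← hOe]
    ext t
    exact hsub t
  have hinv : ∀ g ∈ Set.range (fun n : ℕ => l ^ n), ∀ t ∈ ⋂ n, O n, g * t ∈ ⋂ n, O n := by
    rw [← hOe]
    rintro g ⟨n, rfl⟩
    induction n with
    | zero =>
      intro t ht
      simpa using ht
    | succ n ih =>
      intro t ht
      have h1 : l ^ (n + 1) * t = l * (l ^ n * t) := by
        rw [pow_succ]
        group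
      show HasLim ψ (l ^ (n + 1) * t)
      rw [h1]
      exact hasLim_rot c l ψ he _ (ih t ht)
  apply alt (PS ψ) (IS ψ) (PS_subset_IS ψ) (collingwood ψ hψ')
  rw [hset]
  exact empty_or_residual _ (dense_pow l hl) O hO hinv

theorem dich_E (c : ℂ) (u : Circle) (φ : ℂ → ℂ) (hφ : ContinuousOn φ {z : ℂ | 1 < ‖z‖})
    (he : ∀ z : ℂ, 1 < ‖z‖ → φ ((u : ℂ) * z ^ 2) = quad c (φ z)) :
    ({t : Circle | (IE φ t).Subsingleton} ∈ residual Circle ∧
        IsMeagre {t : Circle | (PE φ t).Nontrivial}) ∨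
      ((∀ t : Circle, (IE φ t).Nontrivial) ∧
        {t : Circle | (PE φ t).Nontrivial} ∈ residual Circle) := by
  obtain ⟨B, hB⟩ := bound_E c u φ hφ he
  have hc : ContinuousOn (inn φ) {z : ℂ | 0 < ‖z‖ ∧ ‖z‖ < 1} := cont_inn φ hφ
  have hq : ∀ z : ℂ, 0 < ‖z‖ → ‖z‖ < 1 → inn φ ((u : ℂ) * z ^ 2) = quad c (inn φ z) :=
    fun z h0 h1 => inn_eq c u φ he z h0 h1
  have hsub : ∀ t : Circle, (IS (inn φ) t).Subsingleton ↔ HasLim (inn φ) t := fun t =>
    sub_iff (inn φ) t (r := 1 / 4) (B := B) (by norm_num)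
      (fun z h0 h1 => bound_inn φ hB z h0 h1)
  obtain ⟨O, hO, hOe⟩ := lim_open (inn φ)
  have hset : {t : Circle | (IS (inn φ) t).Subsingleton} = ⋂ n, O n := by
    rw [← hOe]
    ext t
    exact hsub t
  have hiff : ∀ t : Circle, HasLim (inn φ) (u * t ^ 2) ↔ HasLim (inn φ) t := fun t =>
    ⟨fun h => hasLim_of_quad c (inn φ) hc t (hasLim_quad_of_sq c u (inn φ) hq t h),
      fun h => hasLim_sq c u (inn φ) hq t h⟩
  have hdy : ∀ (m : ℕ) (g : Circle), g ^ (2 ^ m) = 1 → ∀ t : Circle,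
      HasLim (inn φ) t → HasLim (inn φ) (g * t) := by
    intro m
    induction m with
    | zero =>
      intro g hg t ht
      have hg1 : g = 1 := by simpa using hg
      rw [hg1, one_mul]
      exact ht
    | succ m ih =>
      intro g hg t ht
      have h1 : (g ^ 2) ^ (2 ^ m) = 1 := by
        rw [← pow_mul, ← pow_succ']
        exact hg
      have h2 := ih (g ^ 2) h1 (u * t ^ 2) ((hiff t).mpr ht)
      have h3 : g ^ 2 * (u * t ^ 2) = u * (g * t) ^ 2 := by
        rw [mul_pow]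
        exact mul_left_comm _ _ _
      rw [h3] at h2
      exact (hiff (g * t)).mp h2
  have hinv : ∀ g ∈ {w : Circle | ∃ m : ℕ, w ^ (2 ^ m) = 1}, ∀ t ∈ ⋂ n, O n,
      g * t ∈ ⋂ n, O n := by
    rw [← hOe]
    rintro g ⟨m, hm⟩ t ht
    exact hdy m g hm t ht
  have hfin : ({t : Circle | (IS (inn φ) t).Subsingleton} ∈ residual Circle ∧
        IsMeagre {t : Circle | (PS (inn φ) t).Nontrivial}) ∨
      ((∀ t : Circle, (IS (inn φ) t).Nontrivial) ∧
        {t : Circle | (PS (inn φ) t).Nontrivial} ∈ residual Circle) := by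
    apply alt (PS (inn φ)) (IS (inn φ)) (PS_subset_IS _) (collingwood _ hc)
    rw [hset]
    exact empty_or_residual _ dense_dyadic O hO hinv
  simp only [PE_inn, IE_inn]
  exact hfin

end SiegelPE
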